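import Mathlib
import Pool.Agent.H21.FPPDefs
import Pool.Agent.H21.FPP2

namespace Pool.Agent.Results.MP_80cb54_al.Values

open Pool.Agent.H21.FPP Filter Topology

section
variable {d : ℕ} (p : ℕ) [hp : Fact p.Prime] (hd : p ∣ d) (t : ℝ)

open Classical in
noncomputable def S (k : ℕ) : Finset (Fin (p ^ k) × Fin (p ^ k)) :=
  Finset.univ.filter fun a => P p t k (a.1.1, a.2.1)

noncomputable def Q (k : ℕ) : ℝ := (S p t k).card / (p ^ k) ^ 2

lemma fin_eq {q : ℕ} {a b : Fin q} (h : (q : ℤ) ∣ (a.1 : ℤ) - b.1) : a = b := by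
  have := Int.eq_zero_of_abs_lt_dvd h (by rw [abs_lt]; omega)
  exact Fin.ext (by omega)

lemma prop_eq (ht : 0 ≤ t) (h2 : 2 ≤ d) (n : ℕ) :
    prop (φ p hd t).range (n + 1) = Q p t (n / 2) := by
  classical
  have hq : (0 : ℤ) < (p ^ (n / 2) : ℕ) := by have := hp.out.pos; positivity
  let Ψ : Fin (p ^ (n / 2)) × Fin (p ^ (n / 2)) → (φ p hd t).range.map (lev d (n + 1)) :=
    fun a => ⟨lev d (n + 1) (φ p hd t (.ofAdd (a.1.1, a.2.1))), _, ⟨_, rfl⟩, rfl⟩
  have key : ∀ a b : ℤ × ℤ, lev d (n + 1) (φ p hd t (.ofAdd a)) =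
      lev d (n + 1) (φ p hd t (.ofAdd b)) ↔ ((p ^ (n / 2) : ℕ) : ℤ) ∣ a.1 - b.1 ∧
        ((p ^ (n / 2) : ℕ) : ℤ) ∣ a.2 - b.2 := fun a b => by
    rw [← mul_inv_eq_one, ← map_inv, ← map_inv, ← map_mul, ← map_mul, ← ofAdd_neg, ← ofAdd_add,
      ker_iff p hd t ht h2]
    simp [sub_eq_add_neg]
  have hΨ : Function.Bijective Ψ := by
    refine ⟨fun a b e => ?_, ?_⟩
    · have := (key _ _).1 (Subtype.mk.inj e)
      exact Prod.ext (fin_eq this.1) (fin_eq this.2)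
    · rintro ⟨_, _, ⟨a, rfl⟩, rfl⟩
      have h1 := fun x : ℤ => Int.emod_nonneg x hq.ne'
      have h3 := fun x : ℤ => Int.emod_lt_of_pos x hq
      refine ⟨(⟨(a.toAdd.1 % (p ^ (n / 2) : ℕ)).toNat, by have := h3 a.toAdd.1; omega⟩,
        ⟨(a.toAdd.2 % (p ^ (n / 2) : ℕ)).toNat, by have := h3 a.toAdd.2; omega⟩),
        Subtype.ext ((key _ a.toAdd).2 ?_)⟩
      simp only [Int.toNat_of_nonneg (h1 _)]
      exact ⟨Int.dvd_emod_sub_self, Int.dvd_emod_sub_self⟩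
  rw [prop, Q, ← Nat.card_congr (Equiv.ofBijective Ψ hΨ), ← Nat.card_congr
    ((Equiv.ofBijective Ψ hΨ).subtypeEquiv (p := fun a => a ∈ S p t (n / 2)) fun a => by
      rw [S, Finset.mem_filter, ← fix_iff p hd t ht h2]
      simp [Ψ])]
  simp [sq]

omit hp in
lemma P_congr {k : ℕ} {a b : ℤ × ℤ} (h1 : (p : ℤ) ^ k ∣ a.1 - b.1) (h2 : (p : ℤ) ^ k ∣ a.2 - b.2)
    (h : P p t k a) : P p t k b := by
  obtain ⟨m, h3, h4, h5 | h5⟩ := h
  · exact ⟨m, h3, h4, Or.inl (((h5.sub h2).add (h1.mul_left (rev p k m))).trans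
      (dvd_of_eq (by ring)))⟩
  · exact ⟨m, h3, h4, Or.inr (((h5.sub h1).add (h2.mul_left (rev p k m))).trans
      (dvd_of_eq (by ring)))⟩

lemma P_succ (ht : 0 ≤ t) {k : ℕ} {a : ℤ × ℤ} (h : P p t (k + 1) a) : P p t k a := by
  have h1 := (fix_iff p (dvd_refl p) t ht hp.out.two_le (2 * k + 2) a).2
    (by rwa [show (2 * k + 2) / 2 = k + 1 by omega])
  have h2 := (fix_iff p (dvd_refl p) t ht hp.out.two_le (2 * k) a).1
  rw [show 2 * k / 2 = k by omega] at h2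
  obtain ⟨v, hv⟩ := h1
  have hl : (v.1.take (2 * k + 1)).length = 2 * k + 1 := by rw [List.length_take, v.2]; omega
  refine h2 ⟨⟨_, hl⟩, Subtype.ext ?_⟩
  have h3 := ((φ p (dvd_refl p) t (.ofAdd a)).2.2 _ _).1 (List.take_prefix (2 * k + 1) v.1)
  rw [← lev_apply, hv] at h3
  rw [lev_apply, List.prefix_iff_eq_take.1 h3, (φ p (dvd_refl p) t (.ofAdd a)).2.1, hl]

lemma Q_anti (ht : 0 ≤ t) : Antitone (Q p t) := by
  refine antitone_nat_of_succ_le fun k => ?_
  have h0 := hp.out.pos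
  have hq : 0 < p ^ k := by positivity
  have : (S p t (k + 1)).card ≤ (S p t k ×ˢ (Finset.range p ×ˢ Finset.range p)).card := by
    refine Finset.card_le_card_of_injOn (fun a => ((⟨a.1.1 % p ^ k, Nat.mod_lt _ hq⟩,
      ⟨a.2.1 % p ^ k, Nat.mod_lt _ hq⟩), a.1.1 / p ^ k, a.2.1 / p ^ k)) (fun a ha => ?_)
      fun a _ b _ e => ?_
    · simp only [S, Finset.coe_filter, Finset.mem_univ, true_and, Set.mem_ofPred_eq,
        Finset.coe_product, Set.mem_prod, Finset.coe_range, Set.mem_Iio] at ha ⊢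
      refine ⟨P_congr p t ?_ ?_ (P_succ p t ht ha), Nat.div_lt_of_lt_mul (pow_succ p k ▸ a.1.2),
        Nat.div_lt_of_lt_mul (pow_succ p k ▸ a.2.2)⟩ <;> push_cast <;>
        exact Int.dvd_self_sub_emod
    · simp only [Prod.mk.injEq, Fin.mk.injEq] at e
      refine Prod.ext (Fin.ext ?_) (Fin.ext ?_)
      · rw [← Nat.div_add_mod a.1.1 (p ^ k), e.1.1, e.2.1, Nat.div_add_mod]
      · rw [← Nat.div_add_mod a.2.1 (p ^ k), e.1.2, e.2.2, Nat.div_add_mod]
  simp only [Finset.card_product, Finset.card_range] at this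
  rw [Q, Q, div_le_div_iff₀ (by positivity) (by positivity)]
  have h1 : ((S p t (k + 1)).card : ℝ) ≤ (S p t k).card * (p * p) := by exact_mod_cast this
  calc _ ≤ (S p t k).card * (p * p) * ((p : ℝ) ^ k) ^ 2 := by gcongr
    _ = _ := by ring

def Ln (q : ℕ) (r : ℤ) : Finset (Fin q × Fin q) :=
  Finset.univ.filter fun a => (q : ℤ) ∣ a.2.1 - r * a.1.1 ∨ (q : ℤ) ∣ a.1.1 - r * a.2.1

lemma Ln_card (q : ℕ) (r : ℤ) : (Ln q r).card ≤ 2 * q := by
  rw [Ln, Finset.filter_or, two_mul]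
  refine (Finset.card_union_le _ _).trans (Nat.add_le_add ?_ ?_)
  · refine (Finset.card_le_card_of_injOn (t := Finset.univ) Prod.fst (by simp)
      fun a ha b hb e => Prod.ext e (fin_eq ?_)).trans (by simp)
    simp only [Finset.coe_filter, Finset.mem_univ, true_and, Set.mem_ofPred_eq, e] at ha hb
    simpa using ha.sub hb
  · refine (Finset.card_le_card_of_injOn (t := Finset.univ) Prod.snd (by simp)
      fun a ha b hb e => Prod.ext (fin_eq ?_) e).trans (by simp)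
    simp only [Finset.coe_filter, Finset.mem_univ, true_and, Set.mem_ofPred_eq, e] at ha hb
    simpa using ha.sub hb

lemma Q_lip {s t : ℝ} (hs : 0 ≤ s) (hst : s ≤ t) (k : ℕ) :
    Q p s k ≤ Q p t k ∧ Q p t k ≤ Q p s k + 2 * (t - s) + 2 * (1 / p) ^ k := by
  classical
  have h0 : (0 : ℝ) < p ^ k := by have := hp.out.pos; positivity
  constructor
  · refine div_le_div_of_nonneg_right (Nat.cast_le.2 (Finset.card_le_card fun a ha => ?_))
      (by positivity)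
    simp only [S, Finset.mem_filter, Finset.mem_univ, true_and] at ha ⊢
    obtain ⟨m, h1, h2, h3⟩ := ha
    exact ⟨m, h1, h2.trans (by gcongr), h3⟩
  have h1 : S p t k ⊆ S p s k ∪ (Finset.Ioc ⌊s * p ^ k⌋₊ ⌊t * p ^ k⌋₊).biUnion
      fun m => Ln (p ^ k) (rev p k m) := fun a ha => by
    simp only [S, Ln, Finset.mem_filter, Finset.mem_univ, true_and, Finset.mem_union,
      Finset.mem_biUnion, Finset.mem_Ioc] at ha ⊢
    obtain ⟨m, h1, h2, h3⟩ := ha
    by_cases h : (m : ℝ) ≤ s * p ^ k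
    · exact Or.inl ⟨m, h1, h, h3⟩
    · exact Or.inr ⟨m, ⟨(Nat.floor_lt (by positivity)).2 (not_le.1 h), Nat.le_floor h2⟩,
        by simpa using h3⟩
  have h2 := (Finset.card_le_card h1).trans ((Finset.card_union_le _ _).trans
    (Nat.add_le_add_left (Finset.card_biUnion_le_card_mul _ _ _ fun m _ => Ln_card _ _) _))
  rw [Nat.card_Ioc] at h2
  have h3 : ((⌊t * p ^ k⌋₊ - ⌊s * p ^ k⌋₊ : ℕ) : ℝ) ≤ (t - s) * p ^ k + 1 := by
    rw [Nat.cast_sub (Nat.floor_le_floor (by gcongr))]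
    have := Nat.floor_le (a := t * p ^ k) (mul_nonneg (hs.trans hst) h0.le)
    have := Nat.lt_floor_add_one (s * p ^ k)
    linarith
  have h4 : ((S p t k).card : ℝ) ≤ (S p s k).card + ((t - s) * p ^ k + 1) * (2 * p ^ k) := by
    refine le_trans (by exact_mod_cast h2 : _ ≤ ((S p s k).card : ℝ) +
      ((⌊t * p ^ k⌋₊ - ⌊s * p ^ k⌋₊ : ℕ) : ℝ) * (2 * p ^ k)) ?_
    gcongr
  rw [Q, Q, div_le_iff₀ (by positivity), one_div_pow]
  refine h4.trans (le_of_eq ?_)
  field_simp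
  ring

lemma Q_zero (k : ℕ) : Q p 0 k ≤ 2 * (1 / p) ^ k := by
  have h0 : (0 : ℝ) < p ^ k := by have := hp.out.pos; positivity
  have h1 : S p 0 k ⊆ Ln (p ^ k) (rev p k 0) := fun a ha => by
    simp only [S, Ln, Finset.mem_filter, Finset.mem_univ, true_and] at ha ⊢
    obtain ⟨m, -, h2, h3⟩ := ha
    obtain rfl : m = 0 := by simpa using h2
    simpa using h3
  have h2 : ((S p 0 k).card : ℝ) ≤ 2 * p ^ k := by
    exact_mod_cast (Finset.card_le_card h1).trans (Ln_card _ _)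
  rw [Q, div_le_iff₀ (by positivity), one_div_pow]
  refine h2.trans (le_of_eq ?_)
  field_simp

lemma Q_one (k : ℕ) : Q p 1 k = 1 := by
  have h0 : (0 : ℝ) < p ^ k := by have := hp.out.pos; positivity
  have key : ∀ a b : ℕ, (a : ℤ_[p]) ∣ b → ∃ m < p ^ k, (p : ℤ) ^ k ∣ b - rev p k m * a := by
    rintro a b ⟨c, hc⟩
    obtain ⟨m, h1, h2⟩ := rev_surj p k (PadicInt.toZModPow k c).val (ZMod.val_lt _)
    refine ⟨m, h1, ?_⟩
    have h3 := congrArg (PadicInt.toZModPow k) hc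
    rw [← Nat.cast_pow, ← ZMod.intCast_zmod_eq_zero_iff_dvd, h2]
    simp only [map_natCast, map_mul] at h3
    simp [h3, mul_comm]
  have : S p 1 k = Finset.univ := by
    refine Finset.eq_univ_of_forall fun a => ?_
    simp only [S, Finset.mem_filter, Finset.mem_univ, true_and]
    rcases ValuationRing.dvd_total (a.1.1 : ℤ_[p]) a.2.1 with h | h <;>
      obtain ⟨m, h1, h2⟩ := key _ _ h
    · exact ⟨m, h1, by rw [one_mul]; exact_mod_cast h1.le, Or.inl h2⟩
    · exact ⟨m, h1, by rw [one_mul]; exact_mod_cast h1.le, Or.inr h2⟩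
  rw [Q, this, div_eq_one_iff_eq (by positivity)]
  simp [sq]

lemma Q_lim (ht : 0 ≤ t) : Tendsto (Q p t) atTop (𝓝 (⨅ k, Q p t k)) :=
  tendsto_atTop_ciInf (Q_anti p t ht) ⟨0, by rintro _ ⟨k, rfl⟩; unfold Q; positivity⟩

lemma all_values {α : ℝ} (h0 : 0 ≤ α) (h1 : α ≤ 1) :
    ∃ t, 0 ≤ t ∧ Tendsto (Q p t) atTop (𝓝 α) := by
  have hz : Tendsto (fun k : ℕ => 2 * (1 / p : ℝ) ^ k) atTop (𝓝 0) := by
    simpa using (tendsto_pow_atTop_nhds_zero_of_lt_one (r := (1 / p : ℝ)) (by positivity)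
      ((div_lt_one (by exact_mod_cast hp.out.pos)).2 (by exact_mod_cast hp.out.one_lt))).const_mul 2
  have lip : ∀ s t : ℝ, 0 ≤ s → s ≤ t → (⨅ k, Q p s k) ≤ ⨅ k, Q p t k ∧
      (⨅ k, Q p t k) ≤ (⨅ k, Q p s k) + 2 * (t - s) := fun s t hs hst =>
    ⟨le_of_tendsto_of_tendsto' (Q_lim p s hs) (Q_lim p t (hs.trans hst))
      fun k => (Q_lip p hs hst k).1, by
      simpa using le_of_tendsto_of_tendsto' (Q_lim p t (hs.trans hst))
        (((Q_lim p s hs).add_const _).add hz) fun k => (Q_lip p hs hst k).2⟩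
  have hc : ContinuousOn (fun t => ⨅ k, Q p t k) (Set.Icc 0 1) := by
    refine (LipschitzOnWith.of_le_add_mul 2 fun s hs t ht => ?_).continuousOn
    rw [Real.dist_eq]
    rcases le_total s t with h | h
    · have := (lip s t hs.1 h).1
      have := abs_nonneg (s - t)
      simp only [NNReal.coe_ofNat]
      linarith
    · rw [abs_of_nonneg (sub_nonneg.2 h)]
      exact (lip t s ht.1 h).2
  obtain ⟨t, ht, e⟩ := intermediate_value_Icc zero_le_one hc (show α ∈ _ from ⟨by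
    exact (le_of_tendsto_of_tendsto' (Q_lim p 0 le_rfl) hz (Q_zero p)).trans h0, by
    simpa [Q_one] using h1⟩)
  exact ⟨t, ht.1, e ▸ Q_lim p t ht.1⟩

end

lemma derangement {d : ℕ} (h2 : 2 ≤ d) (G : Subgroup (autT d))
    (h : ∀ v w, ∃ g ∈ G, lev d 1 g v = w) : ∃ g ∈ G, ∀ v, lev d 1 g v ≠ v := by
  classical
  by_contra hc
  push Not at hc
  let H := G.map (lev d 1)
  let X := {v : List (Fin d) // v.length = 1}
  have := Fintype.ofFinite X
  have := Fintype.ofFinite H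
  have : MulAction.IsPretransitive H X := ⟨fun v w => by
    obtain ⟨g, hg, e⟩ := h v w
    exact ⟨⟨_, g, hg, rfl⟩, e⟩⟩
  have hb := MulAction.sum_card_fixedBy_eq_card_orbits_mul_card_group H X
  have h1 : Fintype.card (Quotient (MulAction.orbitRel H X)) ≤ 1 :=
    Fintype.card_le_one_iff_subsingleton.2
      ((MulAction.pretransitive_iff_subsingleton_quotient H X).1 this)
  have h3 : ∑ _g : H, 1 < ∑ g : H, Fintype.card (MulAction.fixedBy X g) := by
    refine Finset.sum_lt_sum (fun g _ => Fintype.card_pos_iff.2 ?_) ⟨1, Finset.mem_univ _, ?_⟩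
    · obtain ⟨_, g, hg, rfl⟩ := g
      obtain ⟨v, hv⟩ := hc g hg
      exact ⟨⟨v, hv⟩⟩
    · exact Fintype.one_lt_card_iff.2 ⟨⟨⟨[⟨0, by omega⟩], rfl⟩, by simp⟩,
        ⟨⟨[⟨1, by omega⟩], rfl⟩, by simp⟩, by simp [X]⟩
  rw [hb] at h3
  simp only [Finset.sum_const, Finset.card_univ, smul_eq_mul, mul_one] at h3
  nlinarith

lemma not_one {d : ℕ} (h2 : 2 ≤ d) (G : Subgroup (autT d))
    (h : ∀ v w, ∃ g ∈ G, lev d 1 g v = w) : ¬ HasFPP G 1 := by
  classical
  obtain ⟨g0, hg0, hd⟩ := derangement h2 G h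
  let C := Nat.card (G.map (lev d 1))
  have hC : (0 : ℝ) < C := by exact_mod_cast Nat.card_pos
  have : ∀ n, prop G (n + 1) ≤ 1 - 1 / C := by
    intro n
    have hs : ∀ (m : ℕ) (f : G.map (lev d m)), ∃ g ∈ G, lev d m g = f := fun m f => f.2
    choose s hs1 hs2 using hs
    let π : G.map (lev d (n + 1)) → G.map (lev d 1) := fun f => ⟨_, _, hs1 _ f, rfl⟩
    have h1 := Nat.card_le_card_of_injective (fun f : G.map (lev d (n + 1)) =>
      ((π f, ⟨⟨lev d (n + 1) (g0 * (s 1 (π f))⁻¹ * s _ f), _,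
        G.mul_mem (G.mul_mem hg0 (G.inv_mem (hs1 _ _))) (hs1 _ _), rfl⟩, by
        rintro ⟨v, hv⟩
        have hl : (v.1.take 1).length = 1 := by rw [List.length_take, v.2]; omega
        refine hd ⟨_, hl⟩ (Subtype.ext ?_)
        have e : lev d 1 (g0 * (s 1 (π f))⁻¹ * s _ f) = lev d 1 g0 := by
          rw [map_mul, map_mul, map_inv, hs2]
          simp [π]
        have h3 := ((g0 * (s 1 (π f))⁻¹ * s _ f).2.2 _ _).1 (List.take_prefix 1 v.1)
        rw [← lev_apply (v := v), hv] at h3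
        rw [← e, lev_apply, List.prefix_iff_eq_take.1 h3, (g0 * (s 1 (π f))⁻¹ * s _ f).2.1, hl]⟩) :
        G.map (lev d 1) × {f : G.map (lev d (n + 1)) // ¬ ∃ v, f.1 v = v}))
      fun f f' e => by
        simp only [Prod.mk.injEq, Subtype.mk.injEq, map_mul, hs2] at e
        rw [e.1, mul_right_inj] at e
        exact Subtype.ext e.2
    have h3 := Nat.card_congr (Equiv.sumCompl fun f : G.map (lev d (n + 1)) => ∃ v, f.1 v = v)
    rw [Nat.card_sum] at h3
    rw [Nat.card_prod] at h1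
    have h4 : (0 : ℝ) < Nat.card (G.map (lev d (n + 1))) := by exact_mod_cast Nat.card_pos
    have h5 := (Nat.cast_le (α := ℝ)).2 h1
    have h6 := congrArg (Nat.cast : ℕ → ℝ) h3
    push_cast at h5 h6
    rw [prop, div_le_iff₀ h4, sub_mul, one_mul, one_div_mul_eq_div, le_sub_comm, div_le_iff₀ hC]
    nlinarith
  intro hf
  have h1 := le_of_tendsto' ((tendsto_add_atTop_iff_nat 1).2 hf) this
  have := one_div_pos.2 hC
  linarith

theorem result (d : ℕ) (h2 : 2 ≤ d) :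
    (∀ α : ℝ, 0 ≤ α → α ≤ 1 → ∃ G : Subgroup (autT d), G.FG ∧ HasFPP G α) ∧
    ∀ G : Subgroup (autT d), (∀ n v w, ∃ g ∈ G, lev d n g v = w) → ¬ HasFPP G 1 := by
  refine ⟨fun α h0 h1 => ?_, fun G h => not_one h2 G (h 1)⟩
  have : Fact d.minFac.Prime := ⟨Nat.minFac_prime (by omega)⟩
  obtain ⟨t, ht, h⟩ := all_values d.minFac h0 h1
  refine ⟨(φ d.minFac d.minFac_dvd t).range, (Group.fg_iff_subgroup_fg _).1 inferInstance, ?_⟩
  rw [HasFPP, ← tendsto_add_atTop_iff_nat 1]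
  simp only [prop_eq _ _ t ht h2]
  exact h.comp (Nat.tendsto_div_const_atTop two_ne_zero)

end Pool.Agent.Results.MP_80cb54_al.Values
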